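import Mathlib

set_option autoImplicit false

/-!
Edge intersection graphs of grid paths: definitions and the decomposition of a path with `k` bends
into `k + 1` straight segments.
-/

namespace Pool.Agent.X238.Epg

open Finset

/-- Adjacency in the square grid: distance one. -/
def GridAdj (a b : ℤ × ℤ) : Prop :=
  (a.2 = b.2 ∧ (b.1 = a.1 + 1 ∨ a.1 = b.1 + 1)) ∨ (a.1 = b.1 ∧ (b.2 = a.2 + 1 ∨ a.2 = b.2 + 1))

/-- A grid path: the distinct points `p 0, ..., p len`, consecutive ones are adjacent in the square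
grid. -/
structure GridPath where
  /-- the number of edges -/
  len : ℕ
  /-- the points -/
  p : ℕ → ℤ × ℤ
  inj : ∀ i j, i ≤ len → j ≤ len → p i = p j → i = j
  adj : ∀ i, i < len → GridAdj (p i) (p (i + 1))

/-- The grid edge `ab` is horizontal. -/
def Horizontal (a b : ℤ × ℤ) : Prop := a.2 = b.2

open Classical in
/-- The number of bends: interior vertices of the path at which it switches between a horizontal and
a vertical edge. -/
noncomputable def GridPath.bends (P : GridPath) : ℕ :=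
  ((range (P.len - 1)).filter fun i =>
    ¬ (Horizontal (P.p i) (P.p (i + 1)) ↔ Horizontal (P.p (i + 1)) (P.p (i + 2)))).card

/-- The paths have a grid edge in common. -/
def ShareEdge (P Q : GridPath) : Prop :=
  ∃ i j, i < P.len ∧ j < Q.len ∧ s(P.p i, P.p (i + 1)) = s(Q.p j, Q.p (j + 1))

/-- `G` has an EPG representation in which every path has at most `k` bends. -/
def HasRep {V : Type*} (G : SimpleGraph V) (k : ℕ) : Prop :=
  ∃ P : V → GridPath, (∀ v, (P v).bends ≤ k) ∧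
    ∀ u v, u ≠ v → (G.Adj u v ↔ ShareEdge (P u) (P v))

/-- The bend-number: the least `k` for which there is a `k`-bend EPG representation. -/
noncomputable def bendNumber {V : Type*} (G : SimpleGraph V) : ℕ∞ :=
  ⨅ k ∈ {k : ℕ | HasRep G k}, (k : ℕ∞)

/-- No induced `K_{1,3}`. -/
def ClawFree {V : Type*} (G : SimpleGraph V) : Prop :=
  IsEmpty (completeBipartiteGraph (Fin 1) (Fin 3) ↪g G)

/-! ### Segments -/

/-- The horizontal unit edge from `(x, y)` to `(x + 1, y)` is the edge `ab`. -/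
def EH (a b : ℤ × ℤ) (x y : ℤ) : Prop :=
  (a.1 = x ∧ a.2 = y ∧ b.1 = x + 1 ∧ b.2 = y) ∨ (b.1 = x ∧ b.2 = y ∧ a.1 = x + 1 ∧ a.2 = y)

/-- The vertical unit edge from `(x, y)` to `(x, y + 1)` is the edge `ab`. -/
def EV (a b : ℤ × ℤ) (x y : ℤ) : Prop :=
  (a.1 = x ∧ a.2 = y ∧ b.1 = x ∧ b.2 = y + 1) ∨ (b.1 = x ∧ b.2 = y ∧ a.1 = x ∧ a.2 = y + 1)

/-- The horizontal unit edges of the segment from `a` to `b`. -/
def SH (a b : ℤ × ℤ) (x y : ℤ) : Prop :=
  a.2 = y ∧ b.2 = y ∧ ((a.1 ≤ x ∧ x < b.1) ∨ (b.1 ≤ x ∧ x < a.1))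

/-- The vertical unit edges of the segment from `a` to `b`. -/
def SV (a b : ℤ × ℤ) (x y : ℤ) : Prop :=
  a.1 = x ∧ b.1 = x ∧ ((a.2 ≤ y ∧ y < b.2) ∨ (b.2 ≤ y ∧ y < a.2))

/-- The segment from `a` to `c` is straight and `z` is the point before `c`. -/
def Dir (a c z : ℤ × ℤ) : Prop :=
  (a.2 = c.2 ∧ a.1 < c.1 ∧ z.1 = c.1 - 1 ∧ z.2 = c.2) ∨
  (a.2 = c.2 ∧ c.1 < a.1 ∧ z.1 = c.1 + 1 ∧ z.2 = c.2) ∨
  (a.1 = c.1 ∧ a.2 < c.2 ∧ z.2 = c.2 - 1 ∧ z.1 = c.1) ∨
  (a.1 = c.1 ∧ c.2 < a.2 ∧ z.2 = c.2 + 1 ∧ z.1 = c.1)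

theorem dir_first {a c : ℤ × ℤ} (h : GridAdj a c) : Dir a c a := by
  unfold GridAdj at h
  unfold Dir
  omega

theorem seg_first {a c : ℤ × ℤ} (h : GridAdj a c) (x y : ℤ) :
    (SH a c x y ↔ EH a c x y) ∧ (SV a c x y ↔ EV a c x y) := by
  unfold GridAdj at h
  unfold SH SV EH EV
  omega

theorem dir_next {a c z c' : ℤ × ℤ} (h : Dir a c z) (hc : GridAdj c c') (hz : c' ≠ z)
    (hb : z.2 = c.2 ↔ c.2 = c'.2) : Dir a c' c ∧ ∀ x y, (SH a c' x y ↔ SH a c x y ∨ EH c c' x y) ∧
      (SV a c' x y ↔ SV a c x y ∨ EV c c' x y) := by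
  have hz' : ¬ (c'.1 = z.1 ∧ c'.2 = z.2) := fun h => hz (Prod.ext h.1 h.2)
  obtain ⟨a1, a2⟩ := a
  obtain ⟨c1, c2⟩ := c
  obtain ⟨z1, z2⟩ := z
  obtain ⟨d1, d2⟩ := c'
  unfold GridAdj at hc
  unfold Dir at *
  unfold SH SV EH EV
  simp only at *
  clear hz
  have hd : (a2 = d2 ∧ a1 < c1 ∧ d1 = c1 + 1 ∧ c2 = d2) ∨
      (a2 = d2 ∧ c1 < a1 ∧ c1 = d1 + 1 ∧ c2 = d2) ∨
      (a1 = d1 ∧ a2 < c2 ∧ d2 = c2 + 1 ∧ c1 = d1) ∨
      (a1 = d1 ∧ c2 < a2 ∧ c2 = d2 + 1 ∧ c1 = d1) := by
    rcases h with h | h | h | h <;> rcases hc with ⟨h1, h2 | h2⟩ | ⟨h1, h2 | h2⟩ <;> omega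
  clear h hc hb hz'
  rcases hd with ⟨rfl, h1, rfl, rfl⟩ | ⟨rfl, h1, rfl, rfl⟩ | ⟨rfl, h1, rfl, rfl⟩ | ⟨rfl, h1, rfl, rfl⟩
  · exact ⟨by omega, fun x y => ⟨by omega, by omega⟩⟩
  · exact ⟨by omega, fun x y => ⟨by omega, by omega⟩⟩
  · exact ⟨by omega, fun x y => ⟨by omega, by omega⟩⟩
  · exact ⟨by omega, fun x y => ⟨by omega, by omega⟩⟩

open Classical in
/-- The number of bends before the vertex number `n`. -/
noncomputable def GridPath.bd (P : GridPath) (n : ℕ) : ℕ :=
  ((range (n - 1)).filter fun i =>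
    ¬ (Horizontal (P.p i) (P.p (i + 1)) ↔ Horizontal (P.p (i + 1)) (P.p (i + 2)))).card

theorem decomp_aux (P : GridPath) (n : ℕ) (hn : n + 1 ≤ P.len) :
    ∃ q : ℕ → ℤ × ℤ, q (P.bd (n + 1) + 1) = P.p (n + 1) ∧
      Dir (q (P.bd (n + 1))) (P.p (n + 1)) (P.p n) ∧
      ∀ x y, ((∃ i, i < n + 1 ∧ EH (P.p i) (P.p (i + 1)) x y) ↔
          ∃ j, j < P.bd (n + 1) + 1 ∧ SH (q j) (q (j + 1)) x y) ∧
        ((∃ i, i < n + 1 ∧ EV (P.p i) (P.p (i + 1)) x y) ↔
          ∃ j, j < P.bd (n + 1) + 1 ∧ SV (q j) (q (j + 1)) x y) := by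
  classical
  induction n with
  | zero =>
    have hb : P.bd (0 + 1) = 0 := by simp [GridPath.bd]
    have ha := P.adj 0 (by omega)
    refine ⟨P.p, by rw [hb], by rw [hb]; exact dir_first ha, fun x y => ?_⟩
    rw [hb]
    have h1 := seg_first ha x y
    constructor
    · constructor
      · rintro ⟨i, hi, h⟩
        obtain rfl : i = 0 := by omega
        exact ⟨0, by omega, h1.1.2 h⟩
      · rintro ⟨i, hi, h⟩
        obtain rfl : i = 0 := by omega
        exact ⟨0, by omega, h1.1.1 h⟩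
    · constructor
      · rintro ⟨i, hi, h⟩
        obtain rfl : i = 0 := by omega
        exact ⟨0, by omega, h1.2.2 h⟩
      · rintro ⟨i, hi, h⟩
        obtain rfl : i = 0 := by omega
        exact ⟨0, by omega, h1.2.1 h⟩
  | succ n ih =>
    obtain ⟨q, hq, hdir, hE⟩ := ih (by omega)
    have ha := P.adj (n + 1) (by omega)
    have hne : P.p (n + 1 + 1) ≠ P.p n := by
      intro h
      have := P.inj _ _ (by omega) (by omega) h
      omega
    have hbd : P.bd (n + 1 + 1) = P.bd (n + 1) +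
        (if (Horizontal (P.p n) (P.p (n + 1)) ↔ Horizontal (P.p (n + 1)) (P.p (n + 2))) then 0
          else 1) := by
      unfold GridPath.bd
      have h1 : n + 1 + 1 - 1 = n + 1 := by omega
      have h2 : n + 1 - 1 = n := by omega
      rw [h1, h2, range_add_one, filter_insert]
      by_cases h3 : (Horizontal (P.p n) (P.p (n + 1)) ↔ Horizontal (P.p (n + 1)) (P.p (n + 2)))
      · rw [if_neg (not_not.2 h3), if_pos h3, add_zero]
      · rw [if_pos h3, if_neg h3, card_insert_of_notMem (by simp)]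
    set b := P.bd (n + 1) with hbdef
    by_cases hB : (Horizontal (P.p n) (P.p (n + 1)) ↔ Horizontal (P.p (n + 1)) (P.p (n + 2)))
    · rw [if_pos hB, add_zero] at hbd
      obtain ⟨hd2, hs2⟩ := dir_next hdir ha hne hB
      refine ⟨fun j => if j ≤ b then q j else P.p (n + 1 + 1), ?_, ?_, ?_⟩
      · rw [hbd]
        simp
      · rw [hbd]
        simpa using hd2
      · intro x y
        rw [hbd]
        obtain ⟨h1, h2⟩ := hE x y
        obtain ⟨h3, h4⟩ := hs2 x y
        have key : ∀ (S : ℤ × ℤ → ℤ × ℤ → ℤ → ℤ → Prop) (E : ℤ × ℤ → ℤ × ℤ → ℤ → ℤ → Prop),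
            ((∃ i, i < n + 1 ∧ E (P.p i) (P.p (i + 1)) x y) ↔
              ∃ j, j < b + 1 ∧ S (q j) (q (j + 1)) x y) →
            (S (q b) (P.p (n + 1 + 1)) x y ↔
              S (q b) (P.p (n + 1)) x y ∨ E (P.p (n + 1)) (P.p (n + 1 + 1)) x y) →
            ((∃ i, i < n + 1 + 1 ∧ E (P.p i) (P.p (i + 1)) x y) ↔
              ∃ j, j < b + 1 ∧ S (if j ≤ b then q j else P.p (n + 1 + 1))
                (if j + 1 ≤ b then q (j + 1) else P.p (n + 1 + 1)) x y) := by
          intro S E h1 h3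
          constructor
          · rintro ⟨i, hi, he⟩
            by_cases hin : i = n + 1
            · subst hin
              refine ⟨b, by omega, ?_⟩
              rw [if_pos le_rfl, if_neg (by omega)]
              exact h3.2 (Or.inr he)
            · obtain ⟨j, hj, hs⟩ := h1.1 ⟨i, by omega, he⟩
              refine ⟨j, hj, ?_⟩
              rw [if_pos (by omega)]
              by_cases hjb : j = b
              · rw [if_neg (by omega), hjb]
                rw [hjb, hq] at hs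
                exact h3.2 (Or.inl hs)
              · rw [if_pos (by omega)]
                exact hs
          · rintro ⟨j, hj, hs⟩
            rw [if_pos (by omega)] at hs
            by_cases hjb : j = b
            · rw [if_neg (by omega), hjb] at hs
              rcases h3.1 hs with h5 | h5
              · obtain ⟨i, hi, he⟩ := h1.2 ⟨b, by omega, by rw [hq]; exact h5⟩
                exact ⟨i, by omega, he⟩
              · exact ⟨n + 1, by omega, h5⟩
            · rw [if_pos (by omega)] at hs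
              obtain ⟨i, hi, he⟩ := h1.2 ⟨j, hj, hs⟩
              exact ⟨i, by omega, he⟩
        exact ⟨key SH EH h1 h3, key SV EV h2 h4⟩
    · rw [if_neg hB] at hbd
      refine ⟨fun j => if j ≤ b + 1 then q j else P.p (n + 1 + 1), ?_, ?_, ?_⟩
      · rw [hbd]
        simp
      · rw [hbd]
        simp only [le_refl, if_true]
        rw [hq]
        exact dir_first ha
      · intro x y
        rw [hbd]
        obtain ⟨h1, h2⟩ := hE x y
        obtain ⟨h3, h4⟩ := seg_first ha x y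
        have key : ∀ (S : ℤ × ℤ → ℤ × ℤ → ℤ → ℤ → Prop) (E : ℤ × ℤ → ℤ × ℤ → ℤ → ℤ → Prop),
            ((∃ i, i < n + 1 ∧ E (P.p i) (P.p (i + 1)) x y) ↔
              ∃ j, j < b + 1 ∧ S (q j) (q (j + 1)) x y) →
            (S (P.p (n + 1)) (P.p (n + 1 + 1)) x y ↔
              E (P.p (n + 1)) (P.p (n + 1 + 1)) x y) →
            ((∃ i, i < n + 1 + 1 ∧ E (P.p i) (P.p (i + 1)) x y) ↔
              ∃ j, j < b + 1 + 1 ∧ S (if j ≤ b + 1 then q j else P.p (n + 1 + 1))
                (if j + 1 ≤ b + 1 then q (j + 1) else P.p (n + 1 + 1)) x y) := by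
          intro S E h1 h3
          constructor
          · rintro ⟨i, hi, he⟩
            by_cases hin : i = n + 1
            · subst hin
              refine ⟨b + 1, by omega, ?_⟩
              rw [if_pos le_rfl, if_neg (by omega), hq]
              exact h3.2 he
            · obtain ⟨j, hj, hs⟩ := h1.1 ⟨i, by omega, he⟩
              refine ⟨j, by omega, ?_⟩
              rw [if_pos (by omega), if_pos (by omega)]
              exact hs
          · rintro ⟨j, hj, hs⟩
            rw [if_pos (by omega)] at hs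
            by_cases hjb : j = b + 1
            · rw [if_neg (by omega), hjb, hq] at hs
              exact ⟨n + 1, by omega, h3.1 hs⟩
            · rw [if_pos (by omega)] at hs
              obtain ⟨i, hi, he⟩ := h1.2 ⟨j, by omega, hs⟩
              exact ⟨i, by omega, he⟩
        exact ⟨key SH EH h1 h3, key SV EV h2 h4⟩

/-- **Decomposition** of a path with at most `k` bends into `k + 1` segments. -/
theorem decomp (P : GridPath) (k : ℕ) (hk : P.bends ≤ k) :
    ∃ q : ℕ → ℤ × ℤ, ∀ x y, ((∃ i, i < P.len ∧ EH (P.p i) (P.p (i + 1)) x y) ↔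
          ∃ j, j < k + 1 ∧ SH (q j) (q (j + 1)) x y) ∧
        ((∃ i, i < P.len ∧ EV (P.p i) (P.p (i + 1)) x y) ↔
          ∃ j, j < k + 1 ∧ SV (q j) (q (j + 1)) x y) := by
  rcases Nat.eq_zero_or_pos P.len with h0 | hpos
  · refine ⟨fun _ => 0, fun x y => ⟨?_, ?_⟩⟩
    · constructor
      · rintro ⟨i, hi, _⟩
        omega
      · rintro ⟨j, _, hs⟩
        unfold SH at hs
        simp only at hs
        omega
    · constructor
      · rintro ⟨i, hi, _⟩
        omega
      · rintro ⟨j, _, hs⟩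
        unfold SV at hs
        simp only at hs
        omega
  · obtain ⟨n, hn⟩ : ∃ n, P.len = n + 1 := ⟨P.len - 1, by omega⟩
    obtain ⟨q, hq, hdir, hE⟩ := decomp_aux P n (by omega)
    have hb : P.bd (n + 1) = P.bends := by
      unfold GridPath.bd GridPath.bends
      rw [hn]
    rw [hb] at hq hE
    refine ⟨fun j => if j ≤ P.bends + 1 then q j else P.p (n + 1), fun x y => ?_⟩
    obtain ⟨h1, h2⟩ := hE x y
    rw [hn]
    have key : ∀ (S : ℤ × ℤ → ℤ × ℤ → ℤ → ℤ → Prop) (E : ℤ × ℤ → ℤ × ℤ → ℤ → ℤ → Prop),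
        (∀ a x y, ¬ S a a x y) →
        ((∃ i, i < n + 1 ∧ E (P.p i) (P.p (i + 1)) x y) ↔
          ∃ j, j < P.bends + 1 ∧ S (q j) (q (j + 1)) x y) →
        ((∃ i, i < n + 1 ∧ E (P.p i) (P.p (i + 1)) x y) ↔
          ∃ j, j < k + 1 ∧ S (if j ≤ P.bends + 1 then q j else P.p (n + 1))
            (if j + 1 ≤ P.bends + 1 then q (j + 1) else P.p (n + 1)) x y) := by
      intro S E hS h1
      rw [h1]
      constructor
      · rintro ⟨j, hj, hs⟩
        refine ⟨j, by omega, ?_⟩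
        rw [if_pos (by omega), if_pos (by omega)]
        exact hs
      · rintro ⟨j, hj, hs⟩
        by_cases h5 : j < P.bends + 1
        · rw [if_pos (by omega), if_pos (by omega)] at hs
          exact ⟨j, h5, hs⟩
        · exfalso
          rw [if_neg (c := j + 1 ≤ _) (by omega)] at hs
          by_cases h6 : j = P.bends + 1
          · rw [if_pos (by omega), h6, hq] at hs
            exact hS _ _ _ hs
          · rw [if_neg (by omega)] at hs
            exact hS _ _ _ hs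
    refine ⟨key SH EH ?_ h1, key SV EV ?_ h2⟩
    · intro a x y h
      unfold SH at h
      omega
    · intro a x y h
      unfold SV at h
      omega

theorem share_iff (P Q : GridPath) : ShareEdge P Q ↔
    (∃ x y, (∃ i, i < P.len ∧ EH (P.p i) (P.p (i + 1)) x y) ∧
      ∃ i, i < Q.len ∧ EH (Q.p i) (Q.p (i + 1)) x y) ∨
    (∃ x y, (∃ i, i < P.len ∧ EV (P.p i) (P.p (i + 1)) x y) ∧
      ∃ i, i < Q.len ∧ EV (Q.p i) (Q.p (i + 1)) x y) := by
  constructor
  · rintro ⟨i, j, hi, hj, h⟩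
    have ha := P.adj i hi
    have h' : (P.p i = Q.p j ∧ P.p (i + 1) = Q.p (j + 1)) ∨
        (P.p i = Q.p (j + 1) ∧ P.p (i + 1) = Q.p j) := Sym2.eq_iff.1 h
    rcases ha with ⟨h2, h3⟩ | ⟨h2, h3⟩
    · left
      refine ⟨min (P.p i).1 (P.p (i + 1)).1, (P.p i).2, ⟨i, hi, ?_⟩, ⟨j, hj, ?_⟩⟩
      · unfold EH
        omega
      · unfold EH
        rcases h' with ⟨e1, e2⟩ | ⟨e1, e2⟩ <;> rw [← e1, ← e2] <;> omega
    · right
      refine ⟨(P.p i).1, min (P.p i).2 (P.p (i + 1)).2, ⟨i, hi, ?_⟩, ⟨j, hj, ?_⟩⟩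
      · unfold EV
        omega
      · unfold EV
        rcases h' with ⟨e1, e2⟩ | ⟨e1, e2⟩ <;> rw [← e1, ← e2] <;> omega
  · rintro (⟨x, y, ⟨i, hi, h1⟩, ⟨j, hj, h2⟩⟩ | ⟨x, y, ⟨i, hi, h1⟩, ⟨j, hj, h2⟩⟩)
    · refine ⟨i, j, hi, hj, Sym2.eq_iff.2 ?_⟩
      unfold EH at h1 h2
      simp only [Prod.ext_iff]
      omega
    · refine ⟨i, j, hi, hj, Sym2.eq_iff.2 ?_⟩
      unfold EV at h1 h2
      simp only [Prod.ext_iff]
      omega

end Pool.Agent.X238.Epg
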