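import Mathlib
import Pool.Agent.X238.Epg.Basic

set_option autoImplicit false

/-!
Counting the graphs with a `k`-bend representation.
-/

namespace Pool.Agent.X238.Epg

open Finset

section rel

variable {ι : Type*}

/-- Equality expressed by the strict order. -/
def Eqv (L : ι → ι → Prop) (a b : ι) : Prop := ¬ L a b ∧ ¬ L b a

/-- The segments `ab` and `cd` share a unit edge, expressed by the orders of the coordinates. -/
def Common (LX LY : ι → ι → Prop) (a b c d : ι) : Prop :=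
  Eqv LY a b ∧ Eqv LY b c ∧ Eqv LY c d ∧ (LX a b ∨ LX b a) ∧ (LX c d ∨ LX d c) ∧
  (LX a c ∨ LX a d ∨ LX b c ∨ LX b d) ∧ (LX c a ∨ LX c b ∨ LX d a ∨ LX d b)

theorem common_congr {LX LY LX' LY' : ι → ι → Prop} (hX : ∀ s t, LX s t ↔ LX' s t)
    (hY : ∀ s t, LY s t ↔ LY' s t) (a b c d : ι) :
    Common LX LY a b c d ↔ Common LX' LY' a b c d := by
  unfold Common Eqv
  simp only [hX, hY]

theorem common_h (q : ι → ℤ × ℤ) (a b c d : ι) :
    (∃ x y, SH (q a) (q b) x y ∧ SH (q c) (q d) x y) ↔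
      Common (fun s t => (q s).1 < (q t).1) (fun s t => (q s).2 < (q t).2) a b c d := by
  unfold SH Common Eqv
  constructor
  · rintro ⟨x, y, h1, h2⟩
    omega
  · intro h
    refine ⟨max (min (q a).1 (q b).1) (min (q c).1 (q d).1), (q a).2, ?_, ?_⟩ <;> omega

theorem common_v (q : ι → ℤ × ℤ) (a b c d : ι) :
    (∃ x y, SV (q a) (q b) x y ∧ SV (q c) (q d) x y) ↔
      Common (fun s t => (q s).2 < (q t).2) (fun s t => (q s).1 < (q t).1) a b c d := by
  unfold SV Common Eqv
  constructor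
  · rintro ⟨x, y, h1, h2⟩
    omega
  · intro h
    refine ⟨(q a).1, max (min (q a).2 (q b).2) (min (q c).2 (q d).2), ?_, ?_⟩ <;> omega

/-- The rank function. -/
def rank [Fintype ι] (X : ι → ℤ) (s : ι) : Fin (Fintype.card ι) :=
  ⟨(univ.filter fun t => X t < X s).card, by
    rw [← Finset.card_univ]
    exact Finset.card_lt_card (Finset.filter_ssubset.2 ⟨s, mem_univ _, lt_irrefl _⟩)⟩

theorem rank_lt [Fintype ι] (X : ι → ℤ) (s t : ι) : rank X s < rank X t ↔ X s < X t := by
  unfold rank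
  rw [Fin.mk_lt_mk]
  constructor
  · intro h
    by_contra hcon
    push Not at hcon
    refine absurd h (not_lt.2 (Finset.card_le_card ?_))
    intro r hr
    rw [mem_filter] at hr ⊢
    exact ⟨hr.1, hr.2.trans_le hcon⟩
  · intro h
    apply Finset.card_lt_card
    rw [Finset.ssubset_iff_of_subset]
    · exact ⟨s, by simpa using h, by simp⟩
    · intro r hr
      rw [mem_filter] at hr ⊢
      exact ⟨hr.1, hr.2.trans h⟩

end rel

/-- The adjacency that is read off from the orders of the coordinates. -/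
def AdjOf {V : Type*} {k : ℕ} (LX LY : V × Fin (k + 2) → V × Fin (k + 2) → Prop) (u v : V) : Prop :=
  ∃ i j : Fin (k + 1),
    Common LX LY (u, i.castSucc) (u, i.succ) (v, j.castSucc) (v, j.succ) ∨
    Common LY LX (u, i.castSucc) (u, i.succ) (v, j.castSucc) (v, j.succ)

theorem exists_code {V : Type*} [Fintype V] {G : SimpleGraph V} {k : ℕ} (h : HasRep G k) :
    ∃ c : (V × Fin (k + 2) → Fin (Fintype.card (V × Fin (k + 2)))) ×
        (V × Fin (k + 2) → Fin (Fintype.card (V × Fin (k + 2)))),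
      ∀ u v, u ≠ v → (G.Adj u v ↔ AdjOf (k := k) (fun s t => c.1 s < c.1 t)
        (fun s t => c.2 s < c.2 t) u v) := by
  obtain ⟨P, hP, hG⟩ := h
  choose q hq using fun v => decomp (P v) k (hP v)
  set Q : V × Fin (k + 2) → ℤ × ℤ := fun s => q s.1 s.2 with hQ
  refine ⟨(rank fun s => (Q s).1, rank fun s => (Q s).2), fun u v huv => ?_⟩
  rw [hG u v huv, share_iff]
  unfold AdjOf
  constructor
  · rintro (⟨x, y, h1, h2⟩ | ⟨x, y, h1, h2⟩)
    · obtain ⟨i, hi, h3⟩ := ((hq u x y).1).1 h1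
      obtain ⟨j, hj, h4⟩ := ((hq v x y).1).1 h2
      refine ⟨⟨i, hi⟩, ⟨j, hj⟩, Or.inl ?_⟩
      rw [common_congr (LX' := fun s t => (Q s).1 < (Q t).1) (LY' := fun s t => (Q s).2 < (Q t).2)
        (fun s t => rank_lt (fun s => (Q s).1) s t) (fun s t => rank_lt (fun s => (Q s).2) s t),
        ← common_h]
      exact ⟨x, y, h3, h4⟩
    · obtain ⟨i, hi, h3⟩ := ((hq u x y).2).1 h1
      obtain ⟨j, hj, h4⟩ := ((hq v x y).2).1 h2
      refine ⟨⟨i, hi⟩, ⟨j, hj⟩, Or.inr ?_⟩
      rw [common_congr (LX' := fun s t => (Q s).2 < (Q t).2) (LY' := fun s t => (Q s).1 < (Q t).1)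
        (fun s t => rank_lt (fun s => (Q s).2) s t) (fun s t => rank_lt (fun s => (Q s).1) s t),
        ← common_v]
      exact ⟨x, y, h3, h4⟩
  · rintro ⟨i, j, h | h⟩
    · left
      rw [common_congr (LX' := fun s t => (Q s).1 < (Q t).1) (LY' := fun s t => (Q s).2 < (Q t).2)
        (fun s t => rank_lt (fun s => (Q s).1) s t) (fun s t => rank_lt (fun s => (Q s).2) s t),
        ← common_h] at h
      obtain ⟨x, y, h3, h4⟩ := h
      exact ⟨x, y, ((hq u x y).1).2 ⟨i.1, i.2, h3⟩, ((hq v x y).1).2 ⟨j.1, j.2, h4⟩⟩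
    · right
      rw [common_congr (LX' := fun s t => (Q s).2 < (Q t).2) (LY' := fun s t => (Q s).1 < (Q t).1)
        (fun s t => rank_lt (fun s => (Q s).2) s t) (fun s t => rank_lt (fun s => (Q s).1) s t),
        ← common_v] at h
      obtain ⟨x, y, h3, h4⟩ := h
      exact ⟨x, y, ((hq u x y).2).2 ⟨i.1, i.2, h3⟩, ((hq v x y).2).2 ⟨j.1, j.2, h4⟩⟩

/-! ### Co-bipartite graphs -/

/-- The graph consisting of two cliques and the edges of `S` between them. -/
def coBip {m : ℕ} (S : Finset (Fin m × Fin m)) : SimpleGraph (Fin m ⊕ Fin m) where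
  Adj u v := match u, v with
    | .inl a, .inl b => a ≠ b
    | .inr a, .inr b => a ≠ b
    | .inl a, .inr b => (a, b) ∈ S
    | .inr b, .inl a => (a, b) ∈ S
  symm := ⟨by
    rintro (a | a) (b | b) h
    · exact Ne.symm h
    · exact h
    · exact h
    · exact Ne.symm h⟩
  loopless := ⟨by
    rintro (a | a) h
    · exact h rfl
    · exact h rfl⟩

theorem coBip_clawFree {m : ℕ} (S : Finset (Fin m × Fin m)) : ClawFree (coBip S) := by
  refine ⟨fun e => ?_⟩
  have hna : ∀ i j : Fin 3, i ≠ j → (e (Sum.inr i)).isLeft ≠ (e (Sum.inr j)).isLeft := by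
    intro i j hij hs
    have h1 : ¬ (completeBipartiteGraph (Fin 1) (Fin 3)).Adj (Sum.inr i) (Sum.inr j) := by
      simp [completeBipartiteGraph]
    have h2 : ¬ (coBip S).Adj (e (Sum.inr i)) (e (Sum.inr j)) := fun h => h1 (e.map_adj_iff.1 h)
    have h3 : e (Sum.inr i) ≠ e (Sum.inr j) := by
      intro h
      exact hij (Sum.inr_injective (e.injective h))
    revert h2 h3 hs
    generalize e (Sum.inr i) = x
    generalize e (Sum.inr j) = y
    intro hs h2 h3
    rcases x with a | a <;> rcases y with b | b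
    · exact h2 (fun h => h3 (by rw [h]))
    · simp at hs
    · simp at hs
    · exact h2 (fun h => h3 (by rw [h]))
  have h01 := hna 0 1 (by decide)
  have h02 := hna 0 2 (by decide)
  have h12 := hna 1 2 (by decide)
  revert h01 h02 h12
  generalize (e (Sum.inr 0)).isLeft = x
  generalize (e (Sum.inr 1)).isLeft = y
  generalize (e (Sum.inr 2)).isLeft = z
  revert x y z
  decide

theorem exists_noRep (m k : ℕ)
    (h : ((m + m) * (k + 2)) ^ (2 * ((m + m) * (k + 2))) < 2 ^ (m * m)) :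
    ∃ S : Finset (Fin m × Fin m), ¬ HasRep (coBip S) k := by
  by_contra hcon
  push Not at hcon
  choose c hc using fun S => exists_code (hcon S)
  have hinj : Function.Injective c := by
    intro S T hST
    ext ⟨a, b⟩
    have h1 := hc S (Sum.inl a) (Sum.inr b) (by simp)
    have h2 := hc T (Sum.inl a) (Sum.inr b) (by simp)
    rw [hST] at h1
    exact h1.trans h2.symm
  have hcard := Fintype.card_le_of_injective c hinj
  simp only [Fintype.card_finset, Fintype.card_prod, Fintype.card_fun, Fintype.card_fin,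
    Fintype.card_sum] at hcard
  refine absurd h (not_lt.2 (hcard.trans_eq ?_))
  rw [← pow_add]
  congr 1
  ring

theorem HasRep.mono {V : Type*} {G : SimpleGraph V} {j k : ℕ} (h : HasRep G j) (hjk : j ≤ k) :
    HasRep G k := by
  obtain ⟨P, h1, h2⟩ := h
  exact ⟨P, fun v => (h1 v).trans hjk, h2⟩

theorem lt_bendNumber {V : Type*} {G : SimpleGraph V} {k : ℕ} (h : ¬ HasRep G k) :
    (k : ℕ∞) < bendNumber G := by
  have h1 : ((k + 1 : ℕ) : ℕ∞) ≤ bendNumber G := by
    unfold bendNumber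
    refine le_iInf₂ fun j hj => ?_
    rw [Nat.cast_le]
    by_contra hlt
    exact h (HasRep.mono hj (by omega))
  refine lt_of_lt_of_le ?_ h1
  rw [Nat.cast_lt]
  omega

theorem numeric_aux (K P A m : ℕ) (hK1 : 1 ≤ K) (h3 : K * K ≤ A) (h4 : 64 ≤ P) (h5 : m = P * A) :
    (9 * K + 1) * (4 * K) < m := by
  have h2 : (9 * K + 1) * (4 * K) ≤ 40 * (K * K) := by nlinarith
  have h6 : 0 < A := lt_of_lt_of_le (Nat.mul_pos hK1 hK1) h3
  have h7 : 64 * A ≤ P * A := Nat.mul_le_mul_right _ h4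
  rw [h5]
  omega

theorem numeric (k : ℕ) : ∃ m : ℕ,
    ((m + m) * (k + 2)) ^ (2 * ((m + m) * (k + 2))) < 2 ^ (m * m) := by
  obtain ⟨K, hK⟩ : ∃ K, K = k + 2 := ⟨_, rfl⟩
  rw [← hK]
  have hK2 : K < 2 ^ K := Nat.lt_two_pow_self
  obtain ⟨m, hm⟩ : ∃ m, m = 2 ^ (8 * K) := ⟨_, rfl⟩
  refine ⟨m, ?_⟩
  have hN : (m + m) * K ≤ 2 ^ (9 * K + 1) := by
    calc (m + m) * K ≤ (m + m) * 2 ^ K := Nat.mul_le_mul_left _ hK2.le
      _ = 2 ^ (9 * K + 1) := by
        rw [hm, ← two_mul, ← pow_succ', ← pow_add]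
        congr 1
        ring
  have h1 : (9 * K + 1) * (4 * K) < m := by
    refine numeric_aux K (2 ^ (6 * K)) (2 ^ K * 2 ^ K) m (by omega)
      (Nat.mul_le_mul hK2.le hK2.le) ?_ ?_
    · calc 64 = 2 ^ 6 := by norm_num
        _ ≤ 2 ^ (6 * K) := Nat.pow_le_pow_right (by norm_num) (by omega)
    · rw [hm, ← pow_add, ← pow_add]
      congr 1
      ring
  have hm0 : 0 < m := by rw [hm]; positivity
  calc ((m + m) * K) ^ (2 * ((m + m) * K)) ≤ (2 ^ (9 * K + 1)) ^ (2 * ((m + m) * K)) :=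
        Nat.pow_le_pow_left hN _
    _ = 2 ^ ((9 * K + 1) * (2 * ((m + m) * K))) := by rw [← pow_mul]
    _ < 2 ^ (m * m) := by
      apply Nat.pow_lt_pow_right (by norm_num)
      calc (9 * K + 1) * (2 * ((m + m) * K)) = (9 * K + 1) * (4 * K) * m := by ring
        _ < m * m := Nat.mul_lt_mul_of_pos_right h1 hm0

end Pool.Agent.X238.Epg

namespace Pool.Agent.X238.Epg

theorem coBip_compl {m : ℕ} (S : Finset (Fin m × Fin m)) : (coBip S)ᶜ.Colorable 2 := by
  have h : (coBip S)ᶜ.Coloring Bool := by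
    refine SimpleGraph.Coloring.mk (fun v => v.isLeft) ?_
    intro u v huv hs
    rw [SimpleGraph.compl_adj] at huv
    obtain ⟨h1, h2⟩ := huv
    rcases u with a | a <;> rcases v with b | b
    · exact h2 (fun h => h1 (by rw [h]))
    · simp at hs
    · simp at hs
    · exact h2 (fun h => h1 (by rw [h]))
  exact h.colorable

end Pool.Agent.X238.Epg
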